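import Pool.Agent.N70.ES.Stm

set_option autoImplicit false

/-!
# Fibre products of weakly solvable embedding problems
-/

namespace Pool.Agent.N42.ES

open Pool.Agent.H391R2 Pool.Agent.H391R2.T4
open Pool.Agent.N70.EQ (FPk fpk)

lemma res_res {K L L₁ M : Type} [Field K] [Field L] [Field L₁] [Field M] [Algebra K L]
    [Normal K L] [Algebra K L₁] [Normal K L₁] [Algebra L L₁] [IsScalarTower K L L₁]
    [Algebra K M] [Algebra L M] [Algebra L₁ M] [IsScalarTower K L M] [IsScalarTower K L₁ M]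
    (h : ∀ x : L, algebraMap L M x = algebraMap L₁ M (algebraMap L L₁ x)) (ρ : M ≃ₐ[K] M) :
    (ρ.restrictNormal L₁).restrictNormal L = ρ.restrictNormal L := by
  apply AlgEquiv.ext
  intro x
  apply (algebraMap L M).injective
  rw [AlgEquiv.restrictNormal_commutes, h, AlgEquiv.restrictNormal_commutes,
    AlgEquiv.restrictNormal_commutes, ← h]

/-- A common finite Galois extension. -/
lemma exists_field (K L L₁ L₂ : Type) [Field K] [CharZero K] [Field L] [Algebra K L]
    [FiniteDimensional K L] [Field L₁] [Algebra K L₁] [FiniteDimensional K L₁] [IsGalois K L₁]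
    [Algebra L L₁] [IsScalarTower K L L₁] [Field L₂] [Algebra K L₂] [FiniteDimensional K L₂]
    [IsGalois K L₂] [Algebra L L₂] [IsScalarTower K L L₂] :
    ∃ (M : Type) (_ : Field M) (_ : Algebra K M) (_ : FiniteDimensional K M) (_ : IsGalois K M)
      (j₁ : L₁ →ₐ[K] M) (j₂ : L₂ →ₐ[K] M),
      ∀ x : L, j₁ (algebraMap L L₁ x) = j₂ (algebraMap L L₂ x) := by
  have h1 : FiniteDimensional L L₁ := FiniteDimensional.right K L L₁
  have h2 : FiniteDimensional L L₂ := FiniteDimensional.right K L L₂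
  let i₁ : L₁ →ₐ[L] AlgebraicClosure L := IsAlgClosed.lift
  let i₂ : L₂ →ₐ[L] AlgebraicClosure L := IsAlgClosed.lift
  let j₁ : L₁ →ₐ[K] AlgebraicClosure L := i₁.restrictScalars K
  let j₂ : L₂ →ₐ[K] AlgebraicClosure L := i₂.restrictScalars K
  have f1 : FiniteDimensional K j₁.fieldRange :=
    LinearEquiv.finiteDimensional (AlgEquiv.ofInjectiveField j₁).toLinearEquiv
  have f2 : FiniteDimensional K j₂.fieldRange :=
    LinearEquiv.finiteDimensional (AlgEquiv.ofInjectiveField j₂).toLinearEquiv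
  have n1 : IsGalois K j₁.fieldRange := IsGalois.of_algEquiv (AlgEquiv.ofInjectiveField j₁)
  have n2 : IsGalois K j₂.fieldRange := IsGalois.of_algEquiv (AlgEquiv.ofInjectiveField j₂)
  have f3 : FiniteDimensional K (j₁.fieldRange ⊔ j₂.fieldRange : IntermediateField K _) :=
    IntermediateField.finiteDimensional_sup _ _
  have n3 : IsGalois K (j₁.fieldRange ⊔ j₂.fieldRange : IntermediateField K _) := inferInstance
  refine ⟨(j₁.fieldRange ⊔ j₂.fieldRange : IntermediateField K _), inferInstance, inferInstance,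
    f3, n3, (IntermediateField.inclusion le_sup_left).comp j₁.rangeRestrict,
    (IntermediateField.inclusion le_sup_right).comp j₂.rangeRestrict, fun x => ?_⟩
  apply Subtype.ext
  have h3 : i₁ (algebraMap L L₁ x) = i₂ (algebraMap L L₂ x) := by
    rw [i₁.commutes, i₂.commutes]
  exact h3

/-- **Fibre products of weakly solvable embedding problems are weakly solvable.** -/
theorem t_wf : Pool.Agent.N70.ES.St_wf := by
  intro K L _ _ _ _ _ _ E E' _ _ α α' h1 h2
  obtain ⟨L₁, f1, a1, fd1, g1, al1, t1, s₁, hs₁⟩ := h1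
  obtain ⟨L₂, f2, a2, fd2, g2, al2, t2, s₂, hs₂⟩ := h2
  obtain ⟨M, fM, aM, fdM, gM, j₁, j₂, hj⟩ := exists_field K L L₁ L₂
  let b1 : Algebra L₁ M := j₁.toRingHom.toAlgebra
  let b2 : Algebra L₂ M := j₂.toRingHom.toAlgebra
  let b : Algebra L M := (j₁.toRingHom.comp (algebraMap L L₁)).toAlgebra
  have c1 : IsScalarTower K L₁ M := IsScalarTower.of_algebraMap_eq fun x => (j₁.commutes x).symm
  have c2 : IsScalarTower K L₂ M := IsScalarTower.of_algebraMap_eq fun x => (j₂.commutes x).symm
  have c : IsScalarTower K L M := IsScalarTower.of_algebraMap_eq fun x => by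
    have h3 : algebraMap L M (algebraMap K L x) = j₁ (algebraMap L L₁ (algebraMap K L x)) := rfl
    rw [h3, ← IsScalarTower.algebraMap_apply K L L₁, j₁.commutes]
  have e1 : ∀ ρ : M ≃ₐ[K] M, (ρ.restrictNormal L₁).restrictNormal L = ρ.restrictNormal L :=
    fun ρ => res_res (fun x => rfl) ρ
  have e2 : ∀ ρ : M ≃ₐ[K] M, (ρ.restrictNormal L₂).restrictNormal L = ρ.restrictNormal L :=
    fun ρ => res_res (fun x => hj x) ρ
  refine ⟨M, fM, aM, fdM, gM, b, c,
    ((s₁.comp (AlgEquiv.restrictNormalHom L₁)).prod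
      (s₂.comp (AlgEquiv.restrictNormalHom L₂))).codRestrict (FPk α α') ?_, ?_⟩
  · intro ρ
    change α (s₁ (ρ.restrictNormal L₁)) = α' (s₂ (ρ.restrictNormal L₂))
    rw [hs₁, hs₂, e1, e2]
  · intro ρ
    change α' (s₂ (ρ.restrictNormal L₂)) = ρ.restrictNormal L
    rw [hs₂, e2]

end Pool.Agent.N42.ES
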